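import Pool.Agent.Y722.EP.Defs

/-!
# Products with modular elliptic curves in all codimensions: definitions

`Y` is a projective variety over a number field `K`, with Betti numbers `N 0, N 1, …`, and
`E : y² = x³ + a x + b` an elliptic curve over `ℚ`, `a, b ∈ ℤ`.  By the theorem of Künneth
`H^{2m}(Y × E)` is the sum of `H^{2m}(Y)`, `H^{2m-2}(Y) ⊗ H²(E)` and `H^{2m-1}(Y) ⊗ H¹(E)`.
-/

set_option autoImplicit false

namespace Pool.Agent.Y149.ME

open NumberField IsDedekindDomain Filter Topology Polynomial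

variable {K : Type} [Field K] [NumberField K] {n : ℕ}

/-- The polynomials `B v` are the Euler factors of `L(H^{2m}(Y × E), s)`, `m ≥ 1`, where `Y` is the
variety over `K` of dimension `d` given by the equations `X`, with Betti numbers `N 0, N 1, …`, and
`E` is the elliptic curve `y² = x³ + a x + b`.  For almost all `v`, if `α_j`, `γ_j`, `δ_j` are the
eigenvalues of Frobenius at `v` on `H^{2m-1}(Y)`, `H^{2m}(Y)` and `H^{2m-2}(Y)`, and `β, β'` those on
`H¹(E)`, `β + β' = trace v a b`, `β β' = q_v`, then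
`B_v(z) = ∏ (1 - γ_j z) ∏ (1 - q_v δ_j z) ∏ (1 - α_j β z) (1 - α_j β' z)`.
At the other primes `B v` is an arbitrary polynomial, and no factor `1 / B_v(q_v^{-s})` has a pole
at `s = m + 1`. -/
def IsProductSystem (X : Set (MvPolynomial (Fin n) (𝓞 K))) (d : ℕ) (N : ℕ → ℕ) (m : ℕ) (a b : ℤ)
    (B : HeightOneSpectrum (𝓞 K) → ℂ[X]) : Prop :=
  (∀ᶠ v in cofinite, ∃ (α : Fin (N (2 * m - 1)) → ℂ) (γ : Fin (N (2 * m)) → ℂ)
      (δ : Fin (N (2 * m - 2)) → ℂ),
    Pool.Agent.W353.EF.IsFrobenius X d (2 * m - 1) v α ∧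
    Pool.Agent.W353.EF.IsFrobenius X d (2 * m) v γ ∧
    Pool.Agent.W353.EF.IsFrobenius X d (2 * m - 2) v δ ∧
    ∀ z : ℂ, (B v).eval z =
      (∏ j, (1 - γ j * z)) * (∏ j, (1 - (Ideal.absNorm v.asIdeal : ℂ) * δ j * z)) *
      ∏ j, (1 - (Pool.Agent.Y722.EP.trace v a b : ℂ) * (α j * z) +
        (Ideal.absNorm v.asIdeal : ℂ) * (α j * z) ^ 2)) ∧
  ∀ v, (B v).eval ((Ideal.absNorm v.asIdeal : ℂ) ^ (-(((2 * m : ℕ) : ℂ) / 2 + 1))) ≠ 0

end Pool.Agent.Y149.ME
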