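import Pool.Agent.Y149.ME.Defs
import Pool.Agent.Y722.EP.Main

/-! The size of the `L`-function of the even cohomology of a product with an elliptic curve. -/

set_option autoImplicit false

namespace Pool.Agent.Y149.ME

open Complex Filter Topology NumberField IsDedekindDomain Polynomial
open Pool.Agent.W540.BE Pool.Agent.W353.L1 Pool.Agent.W401.Cheb
open Pool.Agent.H341R2 (lam lam_tendsto)
open Pool.Agent.W353.PV (Eig alp tF pick_spec)
open Pool.Agent.W353.EF (IsFrobenius LFun size IsEulerSystem)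
open Pool.Agent.Y722.EP (trace rE rE_eq abs_rE rt rt_spec two_not_mem size_plain EP_fin prod_unique
  eig_of sqrt_nm_pos trace_bound)

section
variable {K : Type} [Field K] [NumberField K] {n : ℕ} {X : Set (MvPolynomial (Fin n) (𝓞 K))}
  {d : ℕ} {N : ℕ → ℕ}

/-- the eigenvalues on `H^{2m}(Y × E)` -/
noncomputable def de (X : Set (MvPolynomial (Fin n) (𝓞 K))) (d : ℕ) (N : ℕ → ℕ) (m : ℕ) (a b : ℤ)
    (v : HeightOneSpectrum (𝓞 K)) :
    Fin ((N (2 * m) + N (2 * m - 2)) + (N (2 * m - 1) + N (2 * m - 1))) → ℂ :=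
  Fin.append (Fin.append (alp X d (2 * m) (N (2 * m)) K v)
      fun j => (nm K v : ℂ) * alp X d (2 * m - 2) (N (2 * m - 2)) K v j)
    (Fin.append (fun j => alp X d (2 * m - 1) (N (2 * m - 1)) K v j * (rt a b v).1)
      fun j => alp X d (2 * m - 1) (N (2 * m - 1)) K v j * (rt a b v).2)

theorem de_prod (m : ℕ) (a b : ℤ) (v : HeightOneSpectrum (𝓞 K)) (F : ℂ → ℂ) :
    ∏ j, F (de X d N m a b v j) = (∏ j, F (alp X d (2 * m) (N (2 * m)) K v j)) *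
      (∏ j, F ((nm K v : ℂ) * alp X d (2 * m - 2) (N (2 * m - 2)) K v j)) *
      ((∏ j, F (alp X d (2 * m - 1) (N (2 * m - 1)) K v j * (rt a b v).1)) *
        ∏ j, F (alp X d (2 * m - 1) (N (2 * m - 1)) K v j * (rt a b v).2)) := by
  unfold de
  rw [Fin.prod_univ_add, Fin.prod_univ_add, Fin.prod_univ_add]
  simp only [Fin.append_left, Fin.append_right]

theorem de_sum (m : ℕ) (a b : ℤ) (v : HeightOneSpectrum (𝓞 K)) :
    ∑ j, de X d N m a b v j = (∑ j, alp X d (2 * m) (N (2 * m)) K v j) +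
      nm K v * (∑ j, alp X d (2 * m - 2) (N (2 * m - 2)) K v j) +
      (∑ j, alp X d (2 * m - 1) (N (2 * m - 1)) K v j) * ((rt a b v).1 + (rt a b v).2) := by
  unfold de
  rw [Fin.sum_univ_add, Fin.sum_univ_add, Fin.sum_univ_add]
  simp only [Fin.append_left, Fin.append_right]
  rw [← Finset.sum_mul, ← Finset.sum_mul, ← Finset.mul_sum]
  ring

theorem de_all (m : ℕ) (a b : ℤ) (v : HeightOneSpectrum (𝓞 K)) {P : ℂ → Prop}
    (h1 : ∀ j, P (alp X d (2 * m) (N (2 * m)) K v j))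
    (h2 : ∀ j, P ((nm K v : ℂ) * alp X d (2 * m - 2) (N (2 * m - 2)) K v j))
    (h3 : ∀ j, P (alp X d (2 * m - 1) (N (2 * m - 1)) K v j * (rt a b v).1))
    (h4 : ∀ j, P (alp X d (2 * m - 1) (N (2 * m - 1)) K v j * (rt a b v).2))
    (j : Fin ((N (2 * m) + N (2 * m - 2)) + (N (2 * m - 1) + N (2 * m - 1)))) :
    P (de X d N m a b v j) := by
  unfold de
  refine Fin.addCases (fun j => ?_) (fun j => ?_) j
  · rw [Fin.append_left]
    refine Fin.addCases (fun j => ?_) (fun j => ?_) j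
    · rw [Fin.append_left]; exact h1 j
    · rw [Fin.append_right]; exact h2 j
  · rw [Fin.append_right]
    refine Fin.addCases (fun j => ?_) (fun j => ?_) j
    · rw [Fin.append_left]; exact h3 j
    · rw [Fin.append_right]; exact h4 j

/-- good primes -/
structure Good (X : Set (MvPolynomial (Fin n) (𝓞 K))) (d : ℕ) (N : ℕ → ℕ) (m : ℕ)
    (v : HeightOneSpectrum (𝓞 K)) : Prop where
  one : Eig X d (2 * m - 1) v (alp X d (2 * m - 1) (N (2 * m - 1)) K v)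
  two : Eig X d (2 * m) v (alp X d (2 * m) (N (2 * m)) K v)
  zer : Eig X d (2 * m - 2) v (alp X d (2 * m - 2) (N (2 * m - 2)) K v)
  ne : (2 : 𝓞 K) ∉ v.asIdeal

theorem nm_pos' (v : HeightOneSpectrum (𝓞 K)) : (0 : ℝ) < nm K v := by
  have := two_le_nm v
  exact_mod_cast (by omega : 0 < nm K v)

theorem nm_odd {m : ℕ} (hm : 1 ≤ m) (v : HeightOneSpectrum (𝓞 K)) :
    (nm K v : ℝ) ^ (((2 * m - 1 : ℕ) : ℝ) / 2) * Real.sqrt (nm K v) =
      (nm K v : ℝ) ^ (((2 * m : ℕ) : ℝ) / 2) := by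
  rw [Real.sqrt_eq_rpow, ← Real.rpow_add (nm_pos' v)]
  congr 1
  rw [Nat.cast_sub (by omega)]
  push_cast
  ring

theorem nm_low {m : ℕ} (hm : 1 ≤ m) (v : HeightOneSpectrum (𝓞 K)) :
    (nm K v : ℝ) * (nm K v : ℝ) ^ (((2 * m - 2 : ℕ) : ℝ) / 2) =
      (nm K v : ℝ) ^ (((2 * m : ℕ) : ℝ) / 2) := by
  nth_rw 1 [← Real.rpow_one (nm K v : ℝ)]
  rw [← Real.rpow_add (nm_pos' v)]
  congr 1
  rw [Nat.cast_sub (by omega)]
  push_cast
  ring

theorem Good.norm {m : ℕ} (hm : 1 ≤ m) {v : HeightOneSpectrum (𝓞 K)} (hg : Good X d N m v)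
    (a b : ℤ) (j : Fin ((N (2 * m) + N (2 * m - 2)) + (N (2 * m - 1) + N (2 * m - 1)))) :
    ‖de X d N m a b v j‖ = (nm K v : ℝ) ^ (((2 * m : ℕ) : ℝ) / 2) := by
  obtain ⟨r1, r2, -, -⟩ := rt_spec hg.ne a b
  refine de_all (P := fun z => ‖z‖ = (nm K v : ℝ) ^ (((2 * m : ℕ) : ℝ) / 2)) m a b v
    (fun j => hg.two.norm j) (fun j => ?_) (fun j => ?_) (fun j => ?_) j
  · have h1 : ‖alp X d (2 * m - 2) (N (2 * m - 2)) K v j‖ =
        (nm K v : ℝ) ^ (((2 * m - 2 : ℕ) : ℝ) / 2) := hg.zer.norm j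
    rw [norm_mul, h1, Complex.norm_natCast, nm_low hm]
  · have h1 : ‖alp X d (2 * m - 1) (N (2 * m - 1)) K v j‖ =
        (nm K v : ℝ) ^ (((2 * m - 1 : ℕ) : ℝ) / 2) := hg.one.norm j
    rw [norm_mul, h1, r1, nm_odd hm]
  · have h1 : ‖alp X d (2 * m - 1) (N (2 * m - 1)) K v j‖ =
        (nm K v : ℝ) ^ (((2 * m - 1 : ℕ) : ℝ) / 2) := hg.one.norm j
    rw [norm_mul, h1, r2, nm_odd hm]

theorem Good.im {m : ℕ} (hmd : m ≤ d) {v : HeightOneSpectrum (𝓞 K)}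
    (hg : Good X d N m v) (a b : ℤ) : (∑ j, de X d N m a b v j).im = 0 := by
  obtain ⟨-, -, r3, -⟩ := rt_spec hg.ne a b
  rw [de_sum, r3, Complex.add_im, Complex.add_im, hg.two.im (by omega), Complex.mul_im,
    Complex.mul_im, hg.one.im (by omega), hg.zer.im (by omega), Complex.ofReal_im,
    Complex.natCast_im]
  ring

/-- the decomposition of the trace -/
theorem Good.trace {m : ℕ} (hm : 1 ≤ m) (hmd : m ≤ d) {v : HeightOneSpectrum (𝓞 K)}
    (hg : Good X d N m v) (a b : ℤ) : tr (((2 * m : ℕ) : ℝ) / 2) (de X d N m a b) v =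
      tF X d (2 * m) (N (2 * m)) K v + tF X d (2 * m - 2) (N (2 * m - 2)) K v +
        tF X d (2 * m - 1) (N (2 * m - 1)) K v * rE a b v := by
  obtain ⟨-, -, r3, -⟩ := rt_spec hg.ne a b
  have hq := nm_pos' v
  have hs := sqrt_nm_pos v
  unfold tF tr
  rw [if_pos ⟨hg.norm hm a b, hg.im hmd a b⟩,
    if_pos ⟨fun j => hg.two.norm j, hg.two.im (by omega)⟩,
    if_pos ⟨fun j => hg.zer.norm j, hg.zer.im (by omega)⟩,
    if_pos ⟨fun j => hg.one.norm j, hg.one.im (by omega)⟩, rE_eq hg.ne, Real.rpow_neg hq.le,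
    Real.rpow_neg hq.le, Real.rpow_neg hq.le, de_sum, r3, Complex.add_re, Complex.add_re,
    Complex.mul_re, Complex.mul_re, Complex.ofReal_re, Complex.ofReal_im, Complex.natCast_re,
    Complex.natCast_im, mul_zero, sub_zero, zero_mul, sub_zero]
  have e1 : ((nm K v : ℝ) ^ (((2 * m : ℕ) : ℝ) / 2))⁻¹ =
      ((nm K v : ℝ) ^ (((2 * m - 1 : ℕ) : ℝ) / 2))⁻¹ * (Real.sqrt (nm K v))⁻¹ := by
    rw [← mul_inv, nm_odd hm]
  have e2 : (nm K v : ℝ) * ((nm K v : ℝ) ^ (((2 * m : ℕ) : ℝ) / 2))⁻¹ =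
      ((nm K v : ℝ) ^ (((2 * m - 2 : ℕ) : ℝ) / 2))⁻¹ := by
    rw [← nm_low hm v, mul_inv, ← mul_assoc, mul_inv_cancel₀ hq.ne', one_mul]
  have e3 : ∀ A B C D : ℝ, (A + (nm K v : ℝ) * B + C * D) *
      ((nm K v : ℝ) ^ (((2 * m : ℕ) : ℝ) / 2))⁻¹ =
      A * ((nm K v : ℝ) ^ (((2 * m : ℕ) : ℝ) / 2))⁻¹ +
      B * ((nm K v : ℝ) * ((nm K v : ℝ) ^ (((2 * m : ℕ) : ℝ) / 2))⁻¹) +
      C * D * ((nm K v : ℝ) ^ (((2 * m : ℕ) : ℝ) / 2))⁻¹ := by
    intro A B C D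
    ring
  rw [e3, e2]
  congr 1
  rw [e1]
  ring

theorem half_two (i : ℕ) : ((((i : ℕ) : ℝ) / 2 : ℝ) : ℂ) = ((i : ℕ) : ℂ) / 2 := by
  push_cast; rfl

/-- the size of the `L`-function of `H^i(Y)` -/
theorem base {i b : ℕ} (hi : i ≤ 2 * d) {B₀ : HeightOneSpectrum (𝓞 K) → ℂ[X]}
    (h₀ : IsEulerSystem X d i b B₀) :
    (∀ᶠ ε : ℝ in 𝓝[>] 0, LFun B₀ ((i : ℂ) / 2 + 1 + ε) ≠ 0) ∧
    Tendsto (fun ε : ℝ => (EP (nm K) ε fun v => tF X d i b K v) / lam ε - size i B₀ ε)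
      (𝓝[>] 0) (𝓝 0) := by
  have hg0 : ∀ᶠ v in cofinite, Eig X d i v (alp X d i b K v) ∧
      ∀ z : ℂ, (B₀ v).eval z = ∏ j, (1 - alp X d i b K v j * z) := by
    refine h₀.1.mono fun v hv => ?_
    obtain ⟨γ, h1, h2⟩ := hv
    refine ⟨pick_spec ⟨γ, h1⟩, fun z => ?_⟩
    rw [h2 z]
    exact prod_unique hi (eig_of h1) fun y => (1 - y * z)
  have hS0 := size_plain ((i : ℝ) / 2) (alp X d i b K) B₀
    (hg0.mono fun v hv => ⟨⟨fun j => hv.1.norm j, hv.1.im hi⟩, hv.2⟩) (by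
      rw [half_two]
      exact h₀.2)
  rw [half_two] at hS0
  exact hS0

/-- **The size of `L(H^{2m-1}(Y) ⊗ H¹(E))`.** -/
theorem link {m : ℕ} (hm : 1 ≤ m) (hmd : m ≤ d) (a b : ℤ)
    {B₀ B₁ B : HeightOneSpectrum (𝓞 K) → ℂ[X]}
    (h₀ : IsEulerSystem X d (2 * m) (N (2 * m)) B₀)
    (h₁ : IsEulerSystem X d (2 * m - 2) (N (2 * m - 2)) B₁)
    (hB : IsProductSystem X d N m a b B) :
    (∀ᶠ ε : ℝ in 𝓝[>] 0, LFun B (((2 * m : ℕ) : ℂ) / 2 + 1 + ε) ≠ 0) ∧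
    Tendsto (fun ε : ℝ => (EP (nm K) ε fun v =>
      tF X d (2 * m - 1) (N (2 * m - 1)) K v * rE a b v) / lam ε -
      (size (2 * m) B ε - size (2 * m) B₀ ε - size (2 * m - 2) B₁ ε)) (𝓝[>] 0) (𝓝 0) := by
  -- the good primes
  have hg : ∀ᶠ v in cofinite, Good X d N m v ∧ ∀ z : ℂ,
      (B v).eval z = ∏ j, (1 - de X d N m a b v j * z) := by
    filter_upwards [hB.1, two_not_mem (K := K)] with v hv h2
    obtain ⟨α, γ, δ, h3, h4, h6, h5⟩ := hv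
    have g1 : Eig X d (2 * m - 1) v (alp X d (2 * m - 1) (N (2 * m - 1)) K v) :=
      pick_spec ⟨α, h3⟩
    have g2 : Eig X d (2 * m) v (alp X d (2 * m) (N (2 * m)) K v) := pick_spec ⟨γ, h4⟩
    have g3 : Eig X d (2 * m - 2) v (alp X d (2 * m - 2) (N (2 * m - 2)) K v) :=
      pick_spec ⟨δ, h6⟩
    refine ⟨⟨g1, g2, g3, h2⟩, fun z => ?_⟩
    obtain ⟨-, -, r3, r4⟩ := rt_spec h2 a b
    have e1 := prod_unique (i := 2 * m - 1) (by omega) (eig_of h3) fun y =>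
      (1 - (Pool.Agent.Y722.EP.trace v a b : ℂ) * (y * z) +
        (Ideal.absNorm v.asIdeal : ℂ) * (y * z) ^ 2)
    have e2 := prod_unique (i := 2 * m) (by omega) (eig_of h4) fun y => (1 - y * z)
    have e6 := prod_unique (i := 2 * m - 2) (by omega) (eig_of h6) fun y =>
      (1 - (Ideal.absNorm v.asIdeal : ℂ) * y * z)
    rw [h5 z, e1, e2, e6, de_prod m a b v fun y => 1 - y * z, ← Finset.prod_mul_distrib]
    have e3 : ∀ j, (1 - alp X d (2 * m - 1) (N (2 * m - 1)) K v j * (rt a b v).1 * z) *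
        (1 - alp X d (2 * m - 1) (N (2 * m - 1)) K v j * (rt a b v).2 * z) =
        1 - (Pool.Agent.Y722.EP.trace v a b : ℂ) *
          (alp X d (2 * m - 1) (N (2 * m - 1)) K v j * z) +
          (Ideal.absNorm v.asIdeal : ℂ) *
            (alp X d (2 * m - 1) (N (2 * m - 1)) K v j * z) ^ 2 := by
      intro j
      have r3' : (rt a b v).1 + (rt a b v).2 = (Pool.Agent.Y722.EP.trace v a b : ℂ) := by
        rw [r3]; push_cast; rfl
      have r4' : (rt a b v).1 * (rt a b v).2 = (Ideal.absNorm v.asIdeal : ℂ) := by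
        rw [r4]; push_cast; rfl
      rw [← r3', ← r4']
      ring
    rw [Finset.prod_congr rfl fun j _ => e3 j]
    have e4 : ((nm K v : ℕ) : ℂ) = (Ideal.absNorm v.asIdeal : ℂ) := rfl
    rw [e4]
  have hS := size_plain (((2 * m : ℕ) : ℝ) / 2) (de X d N m a b) B
    (hg.mono fun v hv => ⟨⟨hv.1.norm hm a b, hv.1.im hmd a b⟩, hv.2⟩) (by
      rw [half_two]
      exact hB.2)
  have hS0 := base (by omega) h₀
  have hS1 := base (by omega) h₁
  rw [half_two] at hS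
  refine ⟨hS.1, ?_⟩
  have hN : NormSys (nm K) := normSys
  -- the difference of the traces
  set f2 : HeightOneSpectrum (𝓞 K) → ℝ := fun v => tF X d (2 * m) (N (2 * m)) K v with hf2
  set f0 : HeightOneSpectrum (𝓞 K) → ℝ := fun v => tF X d (2 * m - 2) (N (2 * m - 2)) K v with hf0
  set f1 : HeightOneSpectrum (𝓞 K) → ℝ := fun v =>
    tF X d (2 * m - 1) (N (2 * m - 1)) K v * rE a b v with hf1
  set φ : HeightOneSpectrum (𝓞 K) → ℝ := fun v => tr (((2 * m : ℕ) : ℝ) / 2) (de X d N m a b) v -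
    (f2 v + f0 v + f1 v) with hφ
  have hb1 : ∀ v, |f2 v| ≤ (N (2 * m) : ℝ) := fun v => abs_tr_le _ _ _
  have hb0 : ∀ v, |f0 v| ≤ (N (2 * m - 2) : ℝ) := fun v => abs_tr_le _ _ _
  have hb2 : ∀ v, |f1 v| ≤ (N (2 * m - 1) : ℝ) * 2 := by
    intro v
    rw [hf1]
    simp only
    rw [abs_mul]
    exact mul_le_mul (abs_tr_le _ _ _) (abs_rE _ _ _) (abs_nonneg _) (Nat.cast_nonneg _)
  have hb3 : ∀ v, |tr (((2 * m : ℕ) : ℝ) / 2) (de X d N m a b) v| ≤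
      (((N (2 * m) + N (2 * m - 2)) + (N (2 * m - 1) + N (2 * m - 1)) : ℕ) : ℝ) :=
    fun v => abs_tr_le _ _ _
  have hb5 : ∀ v, |f0 v + f1 v| ≤ (N (2 * m - 2) : ℝ) + (N (2 * m - 1) : ℝ) * 2 := fun v =>
    (abs_add_le _ _).trans (add_le_add (hb0 v) (hb2 v))
  have hb6 : ∀ v, |f2 v + (f0 v + f1 v)| ≤
      (N (2 * m) : ℝ) + ((N (2 * m - 2) : ℝ) + (N (2 * m - 1) : ℝ) * 2) := fun v =>
    (abs_add_le _ _).trans (add_le_add (hb1 v) (hb5 v))
  have hb7 : ∀ v, |(-1) * (f2 v + (f0 v + f1 v))| ≤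
      (N (2 * m) : ℝ) + ((N (2 * m - 2) : ℝ) + (N (2 * m - 1) : ℝ) * 2) := fun v => by
    rw [abs_mul, abs_neg, abs_one, one_mul]
    exact hb6 v
  have hφ2 : ∀ v, φ v = tr (((2 * m : ℕ) : ℝ) / 2) (de X d N m a b) v +
      (-1) * (f2 v + (f0 v + f1 v)) := by
    intro v
    rw [hφ]
    ring
  have hφb : ∀ v, |φ v| ≤
      (((N (2 * m) + N (2 * m - 2)) + (N (2 * m - 1) + N (2 * m - 1)) : ℕ) : ℝ) +
      ((N (2 * m) : ℝ) + ((N (2 * m - 2) : ℝ) + (N (2 * m - 1) : ℝ) * 2)) := by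
    intro v
    rw [hφ2]
    exact (abs_add_le _ _).trans (add_le_add (hb3 v) (hb7 v))
  have hφ0 := EP_fin hφb (hg.mono fun v hv => by
    rw [hφ]
    simp only
    rw [hv.1.trace hm hmd, sub_self])
  have h1 := ((hS.2.sub hS0.2).sub hS1.2).sub hφ0
  have e0 : (0 : ℝ) - 0 - 0 - 0 = 0 := by norm_num
  rw [e0] at h1
  refine h1.congr' ?_
  filter_upwards [self_mem_nhdsWithin] with ε hε
  have hε' : (0 : ℝ) < ε := hε
  have e1 : EP (nm K) ε φ =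
      (EP (nm K) ε fun v => tr (((2 * m : ℕ) : ℝ) / 2) (de X d N m a b) v) -
      ((EP (nm K) ε fun v => f2 v) + ((EP (nm K) ε fun v => f0 v) +
        EP (nm K) ε fun v => f1 v)) := by
    have e2 : EP (nm K) ε φ = EP (nm K) ε (fun v =>
      tr (((2 * m : ℕ) : ℝ) / 2) (de X d N m a b) v + (-1) * (f2 v + (f0 v + f1 v))) := by
      congr 1
      funext v
      exact hφ2 v
    rw [e2, EP_add hN hε' hb3 hb7, EP_const_mul, EP_add hN hε' hb1 hb5, EP_add hN hε' hb0 hb2]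
    ring
  unfold size
  unfold size at hS0 hS1
  rw [e1]
  ring

end

end Pool.Agent.Y149.ME
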