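import Pool.Agent.Y149.ME.Link
import Pool.Agent.Y149.Ord

/-! The pole at `s = m + 1` for the products with elliptic curves over the rationals. -/

set_option autoImplicit false

namespace Pool.Agent.Y149.ME

open Complex Filter Topology NumberField IsDedekindDomain Polynomial
open Pool.Agent.W540.BE Pool.Agent.W353.L1
open Pool.Agent.H341R2 (lam lam_tendsto)
open Pool.Agent.W353.PV (tF lim_ord)
open Pool.Agent.W353.EF (LFun size IsEulerSystem)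
open Pool.Agent.Y149.Ord (HasOrder)
open Pool.Agent.Y722.EP (IsModular NotIsogenous rE sys_curves bessel_pos card_of_sum)

section
variable {K : Type} [Field K] [NumberField K] {n : ℕ} {X : Set (MvPolynomial (Fin n) (𝓞 K))}
  {d : ℕ} {N : ℕ → ℕ} {m : ℕ} {ι : Type*} {a b : ι → ℤ}
  {B₀ B₁ : HeightOneSpectrum (𝓞 K) → ℂ[X]} {B : ι → HeightOneSpectrum (𝓞 K) → ℂ[X]}

/-- the size of `L(H^{2m-1}(Y) ⊗ H¹(E_i))` -/
noncomputable def xs (m : ℕ) (B₀ B₁ : HeightOneSpectrum (𝓞 K) → ℂ[X])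
    (B : ι → HeightOneSpectrum (𝓞 K) → ℂ[X]) (i : ι) (ε : ℝ) : ℝ :=
  size (2 * m) (B i) ε - size (2 * m) B₀ ε - size (2 * m - 2) B₁ ε

/-- **The sizes.** -/
theorem main_size (hm : 1 ≤ m) (hmd : m ≤ d) (hΔ : ∀ i, 4 * a i ^ 3 + 27 * b i ^ 2 ≠ 0)
    (hmod : ∀ i, IsModular (a i) (b i))
    (hne : ∀ i j, i ≠ j → NotIsogenous (a i) (b i) (a j) (b j))
    (h₀ : IsEulerSystem X d (2 * m) (N (2 * m)) B₀)
    (h₁ : IsEulerSystem X d (2 * m - 2) (N (2 * m - 2)) B₁)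
    (hB : ∀ i, IsProductSystem X d N m (a i) (b i) (B i))
    (J : Finset ι) {η : ℝ} (hη : 0 < η) :
    (∀ᶠ ε : ℝ in 𝓝[>] 0, ∑ i ∈ J, (max (xs m B₀ B₁ B i ε) 0) ^ 2 ≤
      (N (2 * m - 1) : ℝ) ^ 2 * Module.finrank ℚ K + η) ∧
    (∀ᶠ ε : ℝ in 𝓝[>] 0, ∑ i ∈ J, (max (-xs m B₀ B₁ B i ε) 0) ^ 2 ≤
      (N (2 * m - 1) : ℝ) ^ 2 * Module.finrank ℚ K + η) := by
  obtain ⟨t, ht, hR⟩ := sys_curves J a b (fun i _ => hmod i) (fun i _ j _ => hne i j)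
    (fun i _ => hΔ i) K
  have hT : ∀ v, |tF X d (2 * m - 1) (N (2 * m - 1)) K v| ≤ (N (2 * m - 1) : ℝ) :=
    fun v => abs_tr_le _ _ _
  refine ⟨bessel_pos ht hR (Nat.cast_nonneg _) hT (x := xs m B₀ B₁ B)
    (fun i _ => (link hm hmd (a i) (b i) h₀ h₁ (hB i)).2) hη, ?_⟩
  refine bessel_pos ht hR (Nat.cast_nonneg _)
    (T := fun v => -tF X d (2 * m - 1) (N (2 * m - 1)) K v)
    (fun v => by rw [abs_neg]; exact hT v) (x := fun i ε => -xs m B₀ B₁ B i ε)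
    (fun i _ => ?_) hη
  have h := (link hm hmd (a i) (b i) h₀ h₁ (hB i)).2.neg
  rw [neg_zero] at h
  refine h.congr fun ε => ?_
  have e : (EP (nm K) ε fun v => -tF X d (2 * m - 1) (N (2 * m - 1)) K v *
      rE (a i) (b i) v) =
      -(EP (nm K) ε fun v => tF X d (2 * m - 1) (N (2 * m - 1)) K v * rE (a i) (b i) v) := by
    rw [← neg_one_mul (EP (nm K) ε fun v =>
      tF X d (2 * m - 1) (N (2 * m - 1)) K v * rE (a i) (b i) v), ← EP_const_mul]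
    congr 1
    funext v
    ring
  rw [e]
  unfold xs
  ring

theorem ord_lim {i b : ℕ} {B : HeightOneSpectrum (𝓞 K) → ℂ[X]} {r : ℤ}
    (_hne : ∀ᶠ ε : ℝ in 𝓝[>] 0, LFun B ((i : ℂ) / 2 + 1 + ε) ≠ 0) (hr : HasOrder i B r) :
    Tendsto (size i B) (𝓝[>] 0) (𝓝 (-(r : ℝ))) :=
  Pool.Agent.Y149.Ord.tendsto_size hr

/-- the limit of the sizes -/
theorem xs_lim (hm : 1 ≤ m) (hmd : m ≤ d)
    (h₀ : IsEulerSystem X d (2 * m) (N (2 * m)) B₀)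
    (h₁ : IsEulerSystem X d (2 * m - 2) (N (2 * m - 2)) B₁) {i : ι}
    (hB : IsProductSystem X d N m (a i) (b i) (B i)) {r₀ r₁ r : ℤ}
    (hr₀ : HasOrder (2 * m) B₀ (-r₀)) (hr₁ : HasOrder (2 * m - 2) B₁ (-r₁))
    (hr : HasOrder (2 * m) (B i) (-r)) :
    Tendsto (xs m B₀ B₁ B i) (𝓝[>] 0) (𝓝 ((r : ℝ) - r₀ - r₁)) := by
  have hl := link hm hmd (a i) (b i) h₀ h₁ hB
  have l1 := ord_lim (b := 0) hl.1 hr
  have l2 := ord_lim (b := 0) (base (by omega) h₀).1 hr₀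
  have l3 := ord_lim (b := 0) (base (by omega) h₁).1 hr₁
  have l4 := (l1.sub l2).sub l3
  refine (l4.congr fun ε => rfl).trans (le_of_eq ?_)
  congr 1
  push_cast
  ring

/-- **The orders of the poles**, for a finite family. -/
theorem main_order (hm : 1 ≤ m) (hmd : m ≤ d) (hΔ : ∀ i, 4 * a i ^ 3 + 27 * b i ^ 2 ≠ 0)
    (hmod : ∀ i, IsModular (a i) (b i))
    (hne : ∀ i j, i ≠ j → NotIsogenous (a i) (b i) (a j) (b j))
    (h₀ : IsEulerSystem X d (2 * m) (N (2 * m)) B₀)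
    (h₁ : IsEulerSystem X d (2 * m - 2) (N (2 * m - 2)) B₁)
    (hB : ∀ i, IsProductSystem X d N m (a i) (b i) (B i))
    {r₀ r₁ : ℤ} {r : ι → ℤ} (hr₀ : HasOrder (2 * m) B₀ (-r₀))
    (hr₁ : HasOrder (2 * m - 2) B₁ (-r₁)) (hr : ∀ i, HasOrder (2 * m) (B i) (-r i))
    (J : Finset ι) :
    ∑ i ∈ J, (max (r i - r₀ - r₁) 0) ^ 2 ≤ (N (2 * m - 1) : ℤ) ^ 2 * Module.finrank ℚ K ∧
    ∑ i ∈ J, (max (r₀ + r₁ - r i) 0) ^ 2 ≤ (N (2 * m - 1) : ℤ) ^ 2 * Module.finrank ℚ K := by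
  have hcont1 : Continuous fun x : ℝ => (max x 0) ^ 2 := by fun_prop
  have hcont2 : Continuous fun x : ℝ => (max (-x) 0) ^ 2 := by fun_prop
  have h1 : Tendsto (fun ε => ∑ i ∈ J, (max (xs m B₀ B₁ B i ε) 0) ^ 2) (𝓝[>] 0)
      (𝓝 (∑ i ∈ J, (max ((r i : ℝ) - r₀ - r₁) 0) ^ 2)) :=
    tendsto_finsetSum J fun i _ =>
      (hcont1.tendsto _).comp (xs_lim hm hmd h₀ h₁ (hB i) hr₀ hr₁ (hr i))
  have h2 : Tendsto (fun ε => ∑ i ∈ J, (max (-xs m B₀ B₁ B i ε) 0) ^ 2) (𝓝[>] 0)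
      (𝓝 (∑ i ∈ J, (max (-((r i : ℝ) - r₀ - r₁)) 0) ^ 2)) :=
    tendsto_finsetSum J fun i _ =>
      (hcont2.tendsto _).comp (xs_lim hm hmd h₀ h₁ (hB i) hr₀ hr₁ (hr i))
  have k1 : ∑ i ∈ J, (max ((r i : ℝ) - r₀ - r₁) 0) ^ 2 ≤
      (N (2 * m - 1) : ℝ) ^ 2 * Module.finrank ℚ K :=
    le_of_forall_pos_le_add fun η hη =>
      le_of_tendsto h1 (main_size hm hmd hΔ hmod hne h₀ h₁ hB J hη).1
  have k2 : ∑ i ∈ J, (max (-((r i : ℝ) - r₀ - r₁)) 0) ^ 2 ≤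
      (N (2 * m - 1) : ℝ) ^ 2 * Module.finrank ℚ K :=
    le_of_forall_pos_le_add fun η hη =>
      le_of_tendsto h2 (main_size hm hmd hΔ hmod hne h₀ h₁ hB J hη).2
  constructor
  · have e : ((∑ i ∈ J, (max (r i - r₀ - r₁) 0) ^ 2 : ℤ) : ℝ) =
        ∑ i ∈ J, (max ((r i : ℝ) - r₀ - r₁) 0) ^ 2 := by
      push_cast
      rfl
    rw [← e] at k1
    exact_mod_cast k1
  · have e : ((∑ i ∈ J, (max (r₀ + r₁ - r i) 0) ^ 2 : ℤ) : ℝ) =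
        ∑ i ∈ J, (max (-((r i : ℝ) - r₀ - r₁)) 0) ^ 2 := by
      push_cast
      refine Finset.sum_congr rfl fun i _ => ?_
      congr 2
      ring
    rw [← e] at k2
    exact_mod_cast k2

/-- **The exceptional isogeny classes.** -/
theorem main_card (hm : 1 ≤ m) (hmd : m ≤ d) (hΔ : ∀ i, 4 * a i ^ 3 + 27 * b i ^ 2 ≠ 0)
    (hmod : ∀ i, IsModular (a i) (b i))
    (hne : ∀ i j, i ≠ j → NotIsogenous (a i) (b i) (a j) (b j))
    (h₀ : IsEulerSystem X d (2 * m) (N (2 * m)) B₀)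
    (h₁ : IsEulerSystem X d (2 * m - 2) (N (2 * m - 2)) B₁)
    (hB : ∀ i, IsProductSystem X d N m (a i) (b i) (B i))
    {r₀ r₁ : ℤ} {r : ι → ℤ} (hr₀ : HasOrder (2 * m) B₀ (-r₀))
    (hr₁ : HasOrder (2 * m - 2) B₁ (-r₁)) (hr : ∀ i, HasOrder (2 * m) (B i) (-r i)) :
    {i | r i ≠ r₀ + r₁}.Finite ∧
      {i | r₀ + r₁ < r i}.ncard ≤ N (2 * m - 1) ^ 2 * Module.finrank ℚ K ∧
      {i | r i < r₀ + r₁}.ncard ≤ N (2 * m - 1) ^ 2 * Module.finrank ℚ K := by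
  have h := main_order hm hmd hΔ hmod hne h₀ h₁ hB hr₀ hr₁ hr
  obtain ⟨f1, c1⟩ := card_of_sum (f := fun i => r i - r₀ - r₁)
    (M := N (2 * m - 1) ^ 2 * Module.finrank ℚ K) fun J => by push_cast; exact (h J).1
  obtain ⟨f2, c2⟩ := card_of_sum (f := fun i => r₀ + r₁ - r i)
    (M := N (2 * m - 1) ^ 2 * Module.finrank ℚ K) fun J => by push_cast; exact (h J).2
  have s1 : {i | 0 < r i - r₀ - r₁} = {i | r₀ + r₁ < r i} := by
    ext i; simp only [Set.mem_ofPred_eq]; omega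
  have s2 : {i | 0 < r₀ + r₁ - r i} = {i | r i < r₀ + r₁} := by
    ext i; simp only [Set.mem_ofPred_eq]; omega
  rw [s1] at f1 c1
  rw [s2] at f2 c2
  refine ⟨(f1.union f2).subset ?_, c1, c2⟩
  intro i hi
  rcases lt_or_gt_of_ne hi with h1 | h1
  · exact Or.inr h1
  · exact Or.inl h1

end

end Pool.Agent.Y149.ME
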